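import Pool.Agent.W851.Had.Tower

/-!
# Aperiodic orthogonality of para-unitary families
-/

set_option autoImplicit false

namespace Run7.h900.GI

open Matrix Finset
open scoped Kronecker
open Pool.Agent.H108R3.Had (IsPU PU PUk evM)

/-- coefficients of the para-unitary identity -/
theorem entry {κ : Type} [Fintype κ] [DecidableEq κ] {S : ℕ}
    {W : ℕ → κ → κ → ℤ} (N : ℕ)
    (hleft : ∀ (R : Type) [CommRing R] (u v : R), u * v = 1 →
      evM W S u * (evM W S v)ᵀ = ((N : ℕ) : R) • (1 : Matrix κ κ R))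
    (i i' : κ) (d : ℤ) :
    ∑ j, ∑ n ∈ range S, ∑ m ∈ range S, (W n i j * W m i' j) *
      (if (n : ℤ) - m = d then 1 else 0) =
      if i = i' ∧ d = 0 then ((N : ℕ) : ℤ) else 0 := by
  let u : AddMonoidAlgebra ℤ ℤ := AddMonoidAlgebra.single 1 1
  let v : AddMonoidAlgebra ℤ ℤ := AddMonoidAlgebra.single (-1) 1
  have huv : u * v = 1 := by
    change AddMonoidAlgebra.single (1 : ℤ) (1 : ℤ) * AddMonoidAlgebra.single (-1) 1 = 1
    rw [AddMonoidAlgebra.single_mul_single, add_neg_cancel, mul_one]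
    rfl
  have h := hleft (AddMonoidAlgebra ℤ ℤ) u v huv
  have h1 := congrFun (congrFun h i) i'
  rw [Matrix.mul_apply] at h1
  have h2 : ∀ n m : ℕ, u ^ n * v ^ m = AddMonoidAlgebra.single ((n : ℤ) - m) (1 : ℤ) := by
    intro n m
    change AddMonoidAlgebra.single (1 : ℤ) (1 : ℤ) ^ n *
      AddMonoidAlgebra.single (-1 : ℤ) (1 : ℤ) ^ m = _
    rw [AddMonoidAlgebra.single_pow, AddMonoidAlgebra.single_pow,
      AddMonoidAlgebra.single_mul_single, one_pow, one_pow, mul_one]
    congr 1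
    rw [nsmul_eq_mul, nsmul_eq_mul, mul_one, mul_neg, mul_one, sub_eq_add_neg]
  have h3 : ∀ j, evM W S u i j * (evM W S v)ᵀ j i' = ∑ n ∈ range S, ∑ m ∈ range S,
      (W n i j * W m i' j) • AddMonoidAlgebra.single ((n : ℤ) - m) (1 : ℤ) := by
    intro j
    change (∑ n ∈ range S, ((W n i j : ℤ) : AddMonoidAlgebra ℤ ℤ) * u ^ n) *
      (∑ n ∈ range S, ((W n i' j : ℤ) : AddMonoidAlgebra ℤ ℤ) * v ^ n) = _
    rw [Finset.sum_mul_sum]
    refine Finset.sum_congr rfl fun n _ => Finset.sum_congr rfl fun m _ => ?_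
    rw [← h2, zsmul_eq_mul, Int.cast_mul]
    ring
  have h4 := congrArg (fun x : AddMonoidAlgebra ℤ ℤ => x.coeff d) h1
  simp only [h3] at h4
  have h5 : ∀ (z : ℤ) (n m : ℕ), (z • AddMonoidAlgebra.single ((n : ℤ) - m) (1 : ℤ)).coeff d =
      z * (if (n : ℤ) - m = d then 1 else 0) := by
    intro z n m
    rw [AddMonoidAlgebra.coeff_smul_apply, AddMonoidAlgebra.coeff_single, Finsupp.single_apply, smul_eq_mul]
  simp only [AddMonoidAlgebra.coeff_sum, Finsupp.finsetSum_apply, h5] at h4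
  rw [h4, Matrix.smul_apply, Matrix.one_apply]
  have h6 : ((N : ℕ) : AddMonoidAlgebra ℤ ℤ) = AddMonoidAlgebra.single 0 ((N : ℕ) : ℤ) := by
    rw [AddMonoidAlgebra.natCast_def]
  by_cases hi : i = i'
  · rw [if_pos hi, smul_eq_mul, mul_one, h6, AddMonoidAlgebra.coeff_single, Finsupp.single_apply]
    by_cases hd : d = 0
    · rw [if_pos hd.symm, if_pos ⟨hi, hd⟩]
    · rw [if_neg (fun h => hd h.symm), if_neg (fun h => hd h.2)]
  · rw [if_neg hi, smul_zero, if_neg (fun h => hi h.1)]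
    rfl

/-- aperiodic orthogonality -/
theorem aper {κ : Type} [Fintype κ] [DecidableEq κ] {S : ℕ} {W : ℕ → κ → κ → ℤ} (h : IsPU S W)
    (d : ℕ) : ∑ n ∈ range (S - d), (Matrix.of (W n)) * (Matrix.of (W (n + d)))ᵀ =
      if d = 0 then ((Fintype.card κ * S : ℕ) : ℤ) • (1 : Matrix κ κ ℤ) else 0 := by
  ext i i'
  have h1 := entry (Fintype.card κ * S) h.left i i' (-(d : ℤ))
  have h2 : ∀ j, ∑ n ∈ range S, ∑ m ∈ range S, (W n i j * W m i' j) *
      (if (n : ℤ) - m = -(d : ℤ) then 1 else 0) = ∑ n ∈ range (S - d), W n i j * W (n + d) i' j := by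
    intro j
    have h3 : ∀ n ∈ range S, ∑ m ∈ range S, (W n i j * W m i' j) *
        (if (n : ℤ) - m = -(d : ℤ) then 1 else 0) = if n + d < S then W n i j * W (n + d) i' j else 0 := by
      intro n _
      have h4 : ∀ m : ℕ, ((n : ℤ) - m = -(d : ℤ)) ↔ m = n + d := by intro m; omega
      simp only [h4, mul_ite, mul_one, mul_zero]
      rw [Finset.sum_ite_eq' (range S) (n + d) (fun m => W n i j * W m i' j)]
      simp only [mem_range]
    rw [Finset.sum_congr rfl h3, ← Finset.sum_filter]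
    refine Finset.sum_congr ?_ fun _ _ => rfl
    ext n
    simp only [mem_filter, mem_range]
    omega
  simp only [h2] at h1
  rw [Finset.sum_comm] at h1
  rw [Matrix.sum_apply]
  simp only [Matrix.mul_apply, Matrix.transpose_apply, Matrix.of_apply]
  rw [h1]
  by_cases hd : d = 0
  · rw [if_pos hd, Matrix.smul_apply, Matrix.one_apply]
    by_cases hi : i = i'
    · rw [if_pos hi, if_pos ⟨hi, by omega⟩, smul_eq_mul, mul_one]
    · rw [if_neg hi, if_neg (fun h => hi h.1), smul_zero]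
  · rw [if_neg hd, if_neg (fun h => hd (by omega))]
    rfl

end Run7.h900.GI
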