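import Pool.Agent.Run7.h900.GI.Step
import Pool.Agent.H108R3.Had.Main

/-!
# Group invariant Hadamard matrices
-/

set_option autoImplicit false

namespace Run7.h900.GI

open Matrix Finset
open scoped Kronecker
open Pool.Agent.H108R3.Had (IsPU PU PUk evM)

variable {G : Type} [Group G] [Fintype G]

theorem Fam.reindex {K : Subgroup G} {ν μ : Type} [Fintype ν] [DecidableEq ν] [Fintype μ]
    [DecidableEq μ] (e : μ ≃ ν) {V : G → Matrix ν ν ℤ} (h : Fam K V) :
    Fam K (fun g => (V g).submatrix e e) := by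
  have h1 : ∀ A B : Matrix ν ν ℤ, A.submatrix e e * (B.submatrix e e)ᵀ = (A * Bᵀ).submatrix e e := by
    intro A B
    rw [transpose_submatrix, submatrix_mul_equiv]
  have h2 : ∀ (F : K → Matrix ν ν ℤ) (s : Finset K),
      ∑ k ∈ s, (F k).submatrix e e = (∑ k ∈ s, F k).submatrix e e := by
    intro F s
    ext i j
    simp only [Matrix.sum_apply, Matrix.submatrix_apply]
  refine ⟨fun g hg i j => h.sign g hg _ _, ?_, fun g hg hg1 => ?_⟩
  · simp only [h1]
    rw [h2, h.diag]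
    ext i j
    rw [Matrix.submatrix_apply, Matrix.smul_apply, Matrix.smul_apply, Matrix.one_apply,
      Matrix.one_apply, Fintype.card_congr e]
    by_cases hij : i = j
    · rw [if_pos hij, if_pos (congrArg e hij)]
    · rw [if_neg hij, if_neg (fun h' => hij (e.injective h'))]
  · simp only [h1]
    rw [h2, h.off g hg hg1]
    rfl

/-- a family of size `2 ^ t` exists -/
def Reach (K : Subgroup G) (t : ℕ) : Prop :=
  ∃ V : G → Matrix (Fin (2 ^ t)) (Fin (2 ^ t)) ℤ, Fam K V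

theorem reach_bot (K : Subgroup G) (hK : K = ⊥) (t : ℕ) : Reach K t := by
  classical
  obtain ⟨W, hW⟩ : PUk t 1 := Pool.Agent.W851.Had.one_PUk Pool.Agent.H108R3.Had.t_P2
    Pool.Agent.H108R3.Had.lift t
  have h0 := aper hW 0
  rw [if_pos rfl, Nat.sub_zero, Finset.sum_range_one, Nat.add_zero] at h0
  refine ⟨fun _ => Matrix.of (W 0), fun g _ i j => hW.sign 0 (by omega) i j, ?_, fun g hg hg1 => ?_⟩
  · rw [Finset.sum_const, h0, Finset.card_univ]
    have h1 : Nat.card K = 1 := by rw [hK, Subgroup.card_bot]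
    have h2 : Fintype.card K = 1 := by rw [← Nat.card_eq_fintype_card, h1]
    rw [h2, h1, one_smul]
  · exact absurd (Subgroup.mem_bot.1 (hK ▸ hg)) hg1

theorem reach_step {K K' : Subgroup G} {a : G} {q : ℕ} (h : Steps K K' a q) {t s : ℕ}
    (ht : Reach K t) (hs : PUk s q) : Reach K' (t + s) := by
  obtain ⟨V, hV⟩ := ht
  obtain ⟨W, hW⟩ := hs
  obtain ⟨X, hX⟩ := step h hV hW
  have e : Fin (2 ^ (t + s)) ≃ Fin (2 ^ t) × Fin (2 ^ s) :=
    (finCongr (pow_add 2 t s)).trans finProdFinEquiv.symm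
  exact ⟨_, hX.reindex e⟩

/-- chains -/
theorem reach_chain {C : ℕ} (hC : ∀ n q t : ℕ, q ≤ Pool.Agent.W851.Had.tow n → C ^ (n + 1) ≤ t → PUk t q)
    (K : ℕ → Subgroup G) (a : ℕ → G) (q n : ℕ → ℕ) (h0 : K 0 = ⊥) :
    ∀ r : ℕ, (∀ i < r, Steps (K i) (K (i + 1)) (a i) (q i) ∧ q i ≤ Pool.Agent.W851.Had.tow (n i)) →
      ∀ t : ℕ, ∑ i ∈ range r, C ^ (n i + 1) ≤ t → Reach (K r) t := by
  intro r
  induction r with
  | zero =>
    intro _ t _
    exact reach_bot _ h0 t
  | succ r ih =>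
    intro h t ht
    rw [Finset.sum_range_succ] at ht
    have h1 := ih (fun i hi => h i (by omega)) (∑ i ∈ range r, C ^ (n i + 1)) le_rfl
    obtain ⟨h2, h3⟩ := h r (by omega)
    have h4 := hC (n r) (q r) (t - ∑ i ∈ range r, C ^ (n i + 1)) h3 (by omega)
    have h5 := reach_step h2 h1 h4
    rwa [Nat.add_sub_cancel' (by omega)] at h5

/-- from families to invariant Hadamard matrices -/
theorem reach_had [DecidableEq G] {t : ℕ} (h : Reach (⊤ : Subgroup G) t) :
    ∃ H : Matrix (Fin (2 ^ t) × G) (Fin (2 ^ t) × G) ℤ,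
      (∀ x y, H x y = 1 ∨ H x y = -1) ∧
      H * Hᵀ = ((2 ^ t * Fintype.card G : ℕ) : ℤ) • (1 : Matrix (Fin (2 ^ t) × G) (Fin (2 ^ t) × G) ℤ) ∧
      ∀ (g x y : G) (i j : Fin (2 ^ t)), H (i, g * x) (j, g * y) = H (i, x) (j, y) := by
  classical
  obtain ⟨V, hV⟩ := h
  have hsum : ∀ F : G → Matrix (Fin (2 ^ t)) (Fin (2 ^ t)) ℤ,
      ∑ k : (⊤ : Subgroup G), F k = ∑ z : G, F z := by
    intro F
    exact Equiv.sum_comp (Subgroup.topEquiv (G := G)).toEquiv F
  refine ⟨Matrix.of fun x y => V (x.2⁻¹ * y.2) x.1 y.1,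
    fun x y => hV.sign _ (Subgroup.mem_top _) _ _, ?_, ?_⟩
  · ext ⟨i, x⟩ ⟨j, y⟩
    rw [Matrix.mul_apply, Fintype.sum_prod_type_right]
    have h1 : ∑ z : G, ∑ l : Fin (2 ^ t), V (x⁻¹ * z) i l * V (y⁻¹ * z) j l =
        (∑ z : G, V z * (V ((y⁻¹ * x) * z))ᵀ) i j := by
      rw [← Equiv.sum_comp (Equiv.mulLeft x) (fun z => ∑ l : Fin (2 ^ t), V (x⁻¹ * z) i l * V (y⁻¹ * z) j l),
        Matrix.sum_apply]
      refine Finset.sum_congr rfl fun z _ => ?_
      rw [Matrix.mul_apply]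
      refine Finset.sum_congr rfl fun l _ => ?_
      rw [Equiv.coe_mulLeft, inv_mul_cancel_left, Matrix.transpose_apply, mul_assoc]
    change ∑ z : G, ∑ l : Fin (2 ^ t), V (x⁻¹ * z) i l * V (y⁻¹ * z) j l = _
    rw [h1, Matrix.smul_apply, Matrix.one_apply]
    by_cases hxy : x = y
    · subst hxy
      have h2 := hV.diag
      rw [hsum (fun k => V k * (V k)ᵀ)] at h2
      rw [inv_mul_cancel]
      simp only [one_mul]
      rw [h2, Matrix.smul_apply, Matrix.one_apply]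
      have h3 : Fintype.card (Fin (2 ^ t)) * Nat.card (⊤ : Subgroup G) = 2 ^ t * Fintype.card G := by
        rw [Fintype.card_fin, Subgroup.card_top, Nat.card_eq_fintype_card]
      rw [h3]
      by_cases hij : i = j
      · rw [if_pos hij, if_pos (by rw [hij])]
      · rw [if_neg hij, if_neg (fun h' => hij (congrArg Prod.fst h'))]
    · have h2 := hV.off (y⁻¹ * x) (Subgroup.mem_top _) (fun h' => hxy (by
        have := inv_mul_eq_one.1 h'
        exact this.symm))
      rw [hsum (fun k => V k * (V ((y⁻¹ * x) * k))ᵀ)] at h2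
      rw [h2, if_neg (fun h' => hxy (congrArg Prod.snd h')), smul_zero]
      rfl
  · intro g x y i j
    change V ((g * x)⁻¹ * (g * y)) i j = V (x⁻¹ * y) i j
    rw [_root_.mul_inv_rev, mul_assoc, inv_mul_cancel_left]

end Run7.h900.GI
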