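import Pool.Agent.Run7.h900.GI.Chain

/-!
# Chains in solvable and symmetric groups
-/

set_option autoImplicit false
set_option linter.unusedSectionVars false

namespace Run7.h900.GI

open Finset

section solv

variable {G : Type} [Group G] [Fintype G]

/-- a normal subgroup of prime index -/
theorem exists_prime (H : Type) [Group H] [Finite H] [Group.IsSolvable H] [Nontrivial H] :
    ∃ (M : Subgroup H) (p : ℕ), M.Normal ∧ p.Prime ∧ M.index = p := by
  have h1 : commutator H ≠ ⊤ := (Group.IsSolvable.commutator_lt_top_of_nontrivial H).ne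
  obtain ⟨M, hM, hcM⟩ := (eq_top_or_exists_le_coatom (commutator H)).resolve_left h1
  have hn : M.Normal := by
    refine ⟨fun n hn g => ?_⟩
    have h2 : g * n * g⁻¹ * n⁻¹ ∈ M := hcM (Subgroup.commutator_mem_commutator (Subgroup.mem_top g) (Subgroup.mem_top n))
    have h3 : g * n * g⁻¹ = (g * n * g⁻¹ * n⁻¹) * n := by group
    rw [h3]
    exact M.mul_mem h2 hn
  have hcomm : IsMulCommutative (H ⧸ M) := by
    refine ⟨⟨fun x y => ?_⟩⟩
    induction x using QuotientGroup.induction_on with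
    | H a =>
      induction y using QuotientGroup.induction_on with
      | H b =>
        have h2 : (a * b)⁻¹ * (b * a) ∈ M := by
          have h3 : b⁻¹ * a⁻¹ * (b⁻¹)⁻¹ * (a⁻¹)⁻¹ ∈ M :=
            hcM (Subgroup.commutator_mem_commutator (Subgroup.mem_top _) (Subgroup.mem_top _))
          have h4 : (a * b)⁻¹ * (b * a) = b⁻¹ * a⁻¹ * (b⁻¹)⁻¹ * (a⁻¹)⁻¹ := by group
          rw [h4]
          exact h3
        exact (QuotientGroup.eq (s := M)).2 h2
  have hsimple : IsSimpleGroup (H ⧸ M) := by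
    have hnt : Nontrivial (H ⧸ M) := by
      rw [← not_subsingleton_iff_nontrivial]
      intro h2
      exact hM.1 (QuotientGroup.subsingleton_iff.1 h2 |> fun h => h)
    refine { exists_pair_ne := hnt.exists_pair_ne, eq_bot_or_eq_top_of_normal := fun N _ => ?_ }
    have h2 : M ≤ N.comap (QuotientGroup.mk' M) := by
      intro x hx
      rw [Subgroup.mem_comap]
      have : QuotientGroup.mk' M x = 1 := (QuotientGroup.eq_one_iff x).2 hx
      rw [this]
      exact N.one_mem
    rcases h2.lt_or_eq with h3 | h3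
    · right
      have h4 := hM.2 _ h3
      rw [eq_top_iff]
      intro x _
      obtain ⟨y, rfl⟩ := QuotientGroup.mk'_surjective M x
      have h5 : y ∈ N.comap (QuotientGroup.mk' M) := by rw [h4]; exact Subgroup.mem_top _
      exact h5
    · left
      rw [eq_bot_iff]
      intro x hx
      obtain ⟨y, rfl⟩ := QuotientGroup.mk'_surjective M x
      have h5 : y ∈ N.comap (QuotientGroup.mk' M) := hx
      rw [← h3] at h5
      rw [Subgroup.mem_bot]
      exact (QuotientGroup.eq_one_iff y).2 h5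
  refine ⟨M, M.index, hn, ?_, rfl⟩
  have h6 := Group.is_simple_iff_prime_card.1 hsimple
  exact h6

theorem steps_prime (K' : Subgroup G) (M : Subgroup K') (hn : M.Normal) {p : ℕ} (hp : p.Prime)
    (hM : M.index = p) : ∃ a, Steps (M.map K'.subtype) K' a p := by
  have : Fact p.Prime := ⟨hp⟩
  have hcard : Nat.card (K' ⧸ M) = p := hM
  obtain ⟨a, ha⟩ : ∃ a : K', a ∉ M := by
    by_contra hcon
    push Not at hcon
    have : M = ⊤ := by
      rw [eq_top_iff]
      intro x _
      exact hcon x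
    rw [this, Subgroup.index_top] at hM
    exact hp.one_lt.ne hM
  have ha1 : (a : K' ⧸ M) ≠ 1 := fun h => ha ((QuotientGroup.eq_one_iff a).1 h)
  have hord : orderOf (a : K' ⧸ M) = p := by
    have h1 : orderOf (a : K' ⧸ M) ∣ p := by rw [← hcard]; exact orderOf_dvd_natCard _
    rcases (Nat.dvd_prime hp).1 h1 with h2 | h2
    · exact absurd (orderOf_eq_one_iff.1 h2) ha1
    · exact h2
  refine ⟨a, ?_, a.2, ?_⟩
  · intro x hx
    obtain ⟨y, _, rfl⟩ := hx
    exact y.2
  intro g hg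
  obtain ⟨j, hj, hj2⟩ : ∃ j < p, (a : K' ⧸ M) ^ j = ((⟨g, hg⟩ : K') : K' ⧸ M) := by
    classical
    have h1 : ((⟨g, hg⟩ : K') : K' ⧸ M) ∈ Submonoid.powers (a : K' ⧸ M) :=
      mem_powers_of_prime_card hcard ha1
    obtain ⟨m, hm⟩ := h1
    refine ⟨m % p, Nat.mod_lt _ hp.pos, ?_⟩
    rw [← hm]
    change _ = (a : K' ⧸ M) ^ m
    conv_lhs => rw [← hord]
    rw [pow_mod_orderOf]
  have hk : (⟨g, hg⟩ : K') * (a ^ j)⁻¹ ∈ M := by
    have h1 : (((a ^ j : K')) : K' ⧸ M) = ((⟨g, hg⟩ : K') : K' ⧸ M) := by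
      rw [← hj2]; rfl
    have h2 := (QuotientGroup.eq (s := M)).1 h1
    have h3 : (a ^ j)⁻¹ * ⟨g, hg⟩ ∈ M := h2
    have h4 := hn.conj_mem _ h3 (a ^ j)
    rwa [← mul_assoc, mul_inv_cancel, one_mul] at h4
  refine ⟨(⟨((⟨g, hg⟩ : K') * (a ^ j)⁻¹ : K'), ⟨_, hk, rfl⟩⟩, ⟨j, hj⟩), ?_, ?_⟩
  · change g * (((a : G)) ^ j)⁻¹ * (a : G) ^ j = g
    rw [inv_mul_cancel_right]
  · rintro ⟨⟨k, k', hk', rfl⟩, ⟨j', hj'⟩⟩ hkj
    change (k' : G) * (a : G) ^ j' = g at hkj
    have h5 : k' * a ^ j' = ⟨g, hg⟩ := Subtype.ext hkj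
    have h6 : (a : K' ⧸ M) ^ j' = (a : K' ⧸ M) ^ j := by
      rw [hj2, ← h5]
      change ((a ^ j' : K') : K' ⧸ M) = _
      rw [QuotientGroup.eq]
      have h7 := hn.conj_mem _ hk' (a ^ j')⁻¹
      rw [inv_inv] at h7
      rw [← mul_assoc]
      exact h7
    have h8 : j' = j := by
      have h9 := pow_inj_mod.1 h6
      rw [hord, Nat.mod_eq_of_lt hj', Nat.mod_eq_of_lt hj] at h9
      exact h9
    subst h8
    have h10 : k' = (⟨g, hg⟩ : K') * (a ^ j')⁻¹ := by
      rw [← h5, mul_inv_cancel_right]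
    refine Prod.ext (Subtype.ext ?_) rfl
    change (k' : G) = g * ((a : G) ^ j')⁻¹
    rw [h10]
    rfl

theorem reach_solv {C : ℕ} (hC : ∀ n q t : ℕ, q ≤ Pool.Agent.W851.Had.tow n → C ^ (n + 1) ≤ t →
    Pool.Agent.H108R3.Had.PUk t q) [Group.IsSolvable G] (n : ℕ → ℕ) :
    ∀ (m : ℕ) (K : Subgroup G), Nat.card K = m →
      (∀ p ∈ m.primeFactorsList, p ≤ Pool.Agent.W851.Had.tow (n p)) →
      ∀ t : ℕ, (m.primeFactorsList.map (fun p => C ^ (n p + 1))).sum ≤ t → Reach K t := by
  intro m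
  induction m using Nat.strong_induction_on with
  | _ m ih =>
    intro K hK hp t ht
    rcases eq_or_ne K ⊥ with hb | hb
    · exact reach_bot K hb t
    · have hnt : Nontrivial K := (Subgroup.nontrivial_iff_ne_bot K).2 hb
      obtain ⟨M, p, hn, hpr, hM⟩ := exists_prime K
      obtain ⟨a, ha⟩ := steps_prime K M hn hpr hM
      have hc : Nat.card M * p = m := by rw [← hM, ← hK]; exact M.card_mul_index
      have hc0 : 0 < Nat.card M := Nat.card_pos
      have hc1 : Nat.card (M.map K.subtype) = Nat.card M :=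
        Nat.card_congr (Subgroup.equivMapOfInjective M K.subtype K.subtype_injective).symm.toEquiv
      have hperm : (m.primeFactorsList).Perm ((Nat.card M).primeFactorsList ++ [p]) := by
        rw [← hc, ← Nat.primeFactorsList_prime hpr]
        exact Nat.perm_primeFactorsList_mul hc0.ne' hpr.ne_zero
      have hsum : (m.primeFactorsList.map (fun p => C ^ (n p + 1))).sum =
          ((Nat.card M).primeFactorsList.map (fun p => C ^ (n p + 1))).sum + C ^ (n p + 1) := by
        rw [(hperm.map _).sum_eq, List.map_append, List.sum_append]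
        simp
      have hlt : Nat.card M < m := by
        rw [← hc]
        calc Nat.card M = Nat.card M * 1 := (mul_one _).symm
          _ < Nat.card M * p := Nat.mul_lt_mul_of_pos_left hpr.one_lt hc0
      rw [hsum] at ht
      have h1 := ih (Nat.card M) hlt (M.map K.subtype) hc1
        (fun r hr => hp r (hperm.mem_iff.2 (List.mem_append_left _ hr)))
        ((Nat.card M).primeFactorsList.map (fun p => C ^ (n p + 1))).sum le_rfl
      have h2 := hC (n p) p (t - ((Nat.card M).primeFactorsList.map (fun p => C ^ (n p + 1))).sum)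
        (hp p (hperm.mem_iff.2 (List.mem_append_right _ (List.mem_singleton.2 rfl)))) (by omega)
      have h3 := reach_step ha h1 h2
      rwa [Nat.add_sub_cancel' (by omega)] at h3

end solv

section sym

/-- permutations fixing all `x ≥ i` -/
def Sy (n i : ℕ) : Subgroup (Equiv.Perm (Fin n)) where
  carrier := {σ | ∀ x : Fin n, i ≤ (x : ℕ) → σ x = x}
  mul_mem' := by
    intro a b ha hb x hx
    rw [Equiv.Perm.mul_apply, hb x hx, ha x hx]
  one_mem' := fun x _ => rfl
  inv_mem' := by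
    intro a ha x hx
    rw [Equiv.Perm.inv_eq_iff_eq]
    exact (ha x hx).symm

theorem cyc_pow {n : ℕ} (i : Fin n) (j : ℕ) : ∀ x : Fin n, (x : ℕ) + j = i → (i.cycleRange ^ j) x = i := by
  induction j with
  | zero =>
    intro x hx
    exact Fin.ext (by simpa using hx)
  | succ j ih =>
    intro x hx
    rw [pow_succ, Equiv.Perm.mul_apply]
    have h1 : x < i := by
      rw [Fin.lt_def]; omega
    have h2 := Fin.coe_cycleRange_of_lt h1
    exact ih _ (by rw [h2]; omega)

theorem cyc_fix {n : ℕ} (i : Fin n) (j : ℕ) (x : Fin n) (hx : i < x) : (i.cycleRange ^ j) x = x := by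
  induction j with
  | zero => rfl
  | succ j ih => rw [pow_succ, Equiv.Perm.mul_apply, Fin.cycleRange_of_gt hx, ih]

theorem steps_sym {n : ℕ} (i : ℕ) (hi : i < n) :
    Steps (Sy n i) (Sy n (i + 1)) ((⟨i, hi⟩ : Fin n).cycleRange) (i + 1) := by
  refine ⟨?_, ?_, ?_⟩
  · intro σ hσ x hx
    exact hσ x (by omega)
  · intro x hx
    exact Fin.cycleRange_of_gt (by rw [Fin.lt_def]; exact hx)
  · intro τ hτ
    obtain ⟨y, hy⟩ : ∃ y, τ y = ⟨i, hi⟩ := τ.surjective _
    have hyi : (y : ℕ) ≤ i := by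
      by_contra hcon
      have h1 := hτ y (by omega)
      rw [hy] at h1
      have h2 := congrArg Fin.val h1
      change i = (y : ℕ) at h2
      omega
    have hk : τ * (((⟨i, hi⟩ : Fin n).cycleRange) ^ (i - (y : ℕ)))⁻¹ ∈ Sy n i := by
      intro x hx
      rw [Equiv.Perm.mul_apply]
      rcases Nat.lt_or_ge i x with h1 | h1
      · have h2 : (((⟨i, hi⟩ : Fin n).cycleRange) ^ (i - (y : ℕ)))⁻¹ x = x := by
          rw [Equiv.Perm.inv_eq_iff_eq]
          exact (cyc_fix _ _ x (by rw [Fin.lt_def]; exact h1)).symm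
        rw [h2]
        exact hτ x h1
      · have h3 : x = ⟨i, hi⟩ := Fin.ext (le_antisymm h1 hx)
        have h2 : (((⟨i, hi⟩ : Fin n).cycleRange) ^ (i - (y : ℕ)))⁻¹ x = y := by
          rw [Equiv.Perm.inv_eq_iff_eq, h3]
          exact (cyc_pow _ _ y (by change (y : ℕ) + (i - y) = i; omega)).symm
        rw [h2, hy, h3]
    refine ⟨(⟨_, hk⟩, ⟨i - (y : ℕ), by omega⟩), ?_, ?_⟩
    · change τ * (((⟨i, hi⟩ : Fin n).cycleRange) ^ (i - (y : ℕ)))⁻¹ *
        ((⟨i, hi⟩ : Fin n).cycleRange) ^ (i - (y : ℕ)) = τ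
      rw [inv_mul_cancel_right]
    · rintro ⟨⟨k, hk'⟩, ⟨j, hj⟩⟩ hkj
      change k * ((⟨i, hi⟩ : Fin n).cycleRange) ^ j = τ at hkj
      have h4 : j = i - (y : ℕ) := by
        have h5 : τ ⟨i - j, by omega⟩ = ⟨i, hi⟩ := by
          rw [← hkj, Equiv.Perm.mul_apply, cyc_pow _ _ _ (by change (i - j) + j = i; omega)]
          exact hk' _ le_rfl
        have h6 := τ.injective (h5.trans hy.symm)
        have h7 := congrArg Fin.val h6
        change i - j = (y : ℕ) at h7
        omega
      subst h4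
      refine Prod.ext (Subtype.ext ?_) rfl
      change k = τ * (((⟨i, hi⟩ : Fin n).cycleRange) ^ (i - (y : ℕ)))⁻¹
      rw [← hkj, mul_inv_cancel_right]

theorem reach_sym {C : ℕ} (hC : ∀ n q t : ℕ, q ≤ Pool.Agent.W851.Had.tow n → C ^ (n + 1) ≤ t →
    Pool.Agent.H108R3.Had.PUk t q) (n m t : ℕ) (hm : n ≤ Pool.Agent.W851.Had.tow m)
    (ht : n * C ^ (m + 1) ≤ t) : Reach (⊤ : Subgroup (Equiv.Perm (Fin n))) t := by
  have h0 : Sy n 0 = ⊥ := by
    rw [eq_bot_iff]
    intro σ hσ
    rw [Subgroup.mem_bot]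
    ext x
    rw [hσ x (Nat.zero_le _)]
    rfl
  have h1 : Sy n n = ⊤ := by
    rw [eq_top_iff]
    intro σ _ x hx
    exact absurd x.2 (by omega)
  rw [← h1]
  refine reach_chain hC (Sy n) (fun i => if hi : i < n then (⟨i, hi⟩ : Fin n).cycleRange else 1)
    (fun i => i + 1) (fun _ => m) h0 n (fun i hi => ⟨?_, by omega⟩) t ?_
  · rw [dif_pos hi]
    exact steps_sym i hi
  · rw [Finset.sum_const, card_range, smul_eq_mul]
    exact ht

end sym

end Run7.h900.GI
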