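import Pool.Agent.Run7.h900.GI.Aper

/-!
# Families of matrices indexed by a subgroup
-/

set_option autoImplicit false

namespace Run7.h900.GI

open Matrix Finset
open scoped Kronecker
open Pool.Agent.H108R3.Had (IsPU PU PUk evM)

variable {G : Type} [Group G] [Fintype G]

/-- `K'` is the disjoint union of the cosets `K a ^ j`, `j < q` -/
def Steps (K K' : Subgroup G) (a : G) (q : ℕ) : Prop :=
  K ≤ K' ∧ a ∈ K' ∧ ∀ g ∈ K', ∃! p : K × Fin q, (p.1 : G) * a ^ (p.2 : ℕ) = g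

open scoped Classical in
/-- sign matrices indexed by `K` with orthogonal translates -/
structure Fam (K : Subgroup G) {ν : Type} [Fintype ν] [DecidableEq ν] (V : G → Matrix ν ν ℤ) : Prop where
  sign : ∀ g ∈ K, ∀ i j, V g i j = 1 ∨ V g i j = -1
  diag : ∑ k : K, V k * (V k)ᵀ = ((Fintype.card ν * Nat.card K : ℕ) : ℤ) • (1 : Matrix ν ν ℤ)
  off : ∀ g ∈ K, g ≠ 1 → ∑ k : K, V k * (V (g * k))ᵀ = 0

theorem step {K K' : Subgroup G} {a : G} {q : ℕ} (h : Steps K K' a q)
    {ν : Type} [Fintype ν] [DecidableEq ν] {V : G → Matrix ν ν ℤ} (hV : Fam K V)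
    {κ : Type} [Fintype κ] [DecidableEq κ] {W : ℕ → κ → κ → ℤ} (hW : IsPU q W) :
    ∃ X : G → Matrix (ν × κ) (ν × κ) ℤ, Fam K' X := by
  classical
  obtain ⟨hle, ha, hdec⟩ := h
  -- the decomposition
  have hf : ∀ g : K', ∃ p : K × Fin q, (p.1 : G) * a ^ (p.2 : ℕ) = g ∧
      ∀ p' : K × Fin q, (p'.1 : G) * a ^ (p'.2 : ℕ) = g → p' = p := by
    intro g
    obtain ⟨p, hp1, hp2⟩ := hdec g g.2
    exact ⟨p, hp1, fun p' hp' => hp2 p' hp'⟩
  choose f hf1 hf2 using hf
  have hmem : ∀ p : K × Fin q, (p.1 : G) * a ^ (p.2 : ℕ) ∈ K' := fun p =>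
    K'.mul_mem (hle p.1.2) (K'.pow_mem ha _)
  let e : (K × Fin q) ≃ K' :=
    { toFun := fun p => ⟨(p.1 : G) * a ^ (p.2 : ℕ), hmem p⟩
      invFun := f
      left_inv := fun p => (hf2 ⟨_, hmem p⟩ p rfl).symm
      right_inv := fun g => Subtype.ext (hf1 g) }
  let U : ℕ → Matrix κ κ ℤ := fun n => Matrix.of (W n)
  let X : G → Matrix (ν × κ) (ν × κ) ℤ := fun g =>
    if hg : g ∈ K' then V (f ⟨g, hg⟩).1 ⊗ₖ U (f ⟨g, hg⟩).2 else 0
  have hX : ∀ (k : K) (j : ℕ) (hj : j < q), X (k * a ^ j) = V k ⊗ₖ U j := by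
    intro k j hj
    have h1 := hmem (k, ⟨j, hj⟩)
    change (k : G) * a ^ j ∈ K' at h1
    have h2 : f ⟨(k : G) * a ^ j, h1⟩ = (k, ⟨j, hj⟩) := (hf2 ⟨_, h1⟩ (k, ⟨j, hj⟩) rfl).symm
    simp only [X]
    rw [dif_pos h1, h2]
  have hcard : Nat.card K' = Nat.card K * q := by
    rw [← Nat.card_congr e, Nat.card_prod, Nat.card_fin]
  have hq0 : 0 < q := by
    have h1 := (f 1).2.2
    omega
  -- `a ^ q ∈ K`
  have haq : a ^ q ∈ K := by
    obtain ⟨⟨k0, j0⟩, h1⟩ : ∃ p : K × Fin q, (p.1 : G) * a ^ (p.2 : ℕ) = a ^ q := by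
      obtain ⟨p, hp, -⟩ := hdec (a ^ q) (K'.pow_mem ha q)
      exact ⟨p, hp⟩
    change (k0 : G) * a ^ (j0 : ℕ) = a ^ q at h1
    have h2 : a ^ (q - (j0 : ℕ)) = k0 := by
      have h3 : a ^ (q - (j0 : ℕ)) * a ^ (j0 : ℕ) = a ^ q := by
        rw [← pow_add]; congr 1; omega
      rw [← h1] at h3
      exact mul_right_cancel h3
    rcases Nat.eq_zero_or_pos (j0 : ℕ) with h4 | h4
    · rw [h4, pow_zero, mul_one] at h1
      rw [← h1]
      exact k0.2
    · exfalso
      have h5 : q - (j0 : ℕ) < q := by omega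
      have h6 := hf2 ⟨(k0 : G) * a ^ 0, hmem (k0, ⟨0, hq0⟩)⟩ (k0, ⟨0, hq0⟩) rfl
      have h7 := hf2 ⟨(k0 : G) * a ^ 0, hmem (k0, ⟨0, hq0⟩)⟩ (1, ⟨q - (j0 : ℕ), h5⟩) (by
        change (1 : G) * a ^ (q - (j0 : ℕ)) = (k0 : G) * a ^ 0
        rw [h2, one_mul, pow_zero, mul_one])
      have h8 := congrArg (fun p : K × Fin q => (p.2 : ℕ)) (h7.trans h6.symm)
      change q - (j0 : ℕ) = 0 at h8
      have := j0.2
      omega
  -- the inner sum
  have key : ∀ (g : G) (hg : g ∈ K') (k : K), ∃ (k'' : K) (s : ℕ), s < q ∧ g * k = k'' * a ^ s ∧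
      ∑ j : Fin q, X (k * a ^ (j : ℕ)) * (X (g * (k * a ^ (j : ℕ))))ᵀ =
        if s = 0 then ((Fintype.card κ * q : ℕ) : ℤ) • ((V k * (V (k'' : G))ᵀ) ⊗ₖ (1 : Matrix κ κ ℤ))
        else 0 := by
    intro g hg k
    have hgk : g * k ∈ K' := K'.mul_mem hg (hle k.2)
    obtain ⟨⟨k'', s⟩, hk, -⟩ := hdec _ hgk
    change (k'' : G) * a ^ (s : ℕ) = g * k at hk
    refine ⟨k'', s, s.2, hk.symm, ?_⟩
    have h1 : ∀ j ∈ range q, X (k * a ^ j) * (X (g * (k * a ^ j)))ᵀ =
        if j < q - s then (V k * (V (k'' : G))ᵀ) ⊗ₖ (U j * (U (j + s))ᵀ)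
        else (V k * (V ((k'' : G) * a ^ q))ᵀ) ⊗ₖ (U j * (U (j - (q - s)))ᵀ) := by
      intro j hj
      rw [mem_range] at hj
      rw [hX k j hj]
      by_cases hjs : j < q - s
      · rw [if_pos hjs]
        have h2 : g * (k * a ^ j) = k'' * a ^ (j + s) := by
          rw [← mul_assoc, ← hk, mul_assoc, ← pow_add, Nat.add_comm]
        rw [h2, hX k'' (j + s) (by omega), ← kroneckerMap_transpose, ← mul_kronecker_mul]
      · rw [if_neg hjs]
        have h2 : g * (k * a ^ j) = ((k'' * ⟨a ^ q, haq⟩ : K) : G) * a ^ (j - (q - s)) := by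
          rw [← mul_assoc, ← hk, mul_assoc, ← pow_add]
          change (k'' : G) * a ^ ((s : ℕ) + j) = (k'' : G) * a ^ q * a ^ (j - (q - s))
          rw [mul_assoc, ← pow_add]
          congr 2
          omega
        rw [h2, hX _ (j - (q - s)) (by omega), ← kroneckerMap_transpose, ← mul_kronecker_mul]
        rfl
    rw [Fin.sum_univ_eq_sum_range (fun j => X (k * a ^ j) * (X (g * (k * a ^ j)))ᵀ) q,
      Finset.sum_congr rfl h1, Finset.sum_ite]
    have h3 : (range q).filter (fun j => j < q - s) = range (q - s) := by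
      ext j; simp only [mem_filter, mem_range]; omega
    have h4 : ∑ j ∈ (range q).filter (fun j => ¬ j < q - s),
        (V k * (V ((k'' : G) * a ^ q))ᵀ) ⊗ₖ (U j * (U (j - (q - s)))ᵀ) =
        (V k * (V ((k'' : G) * a ^ q))ᵀ) ⊗ₖ (∑ j ∈ range (s : ℕ), U (j + (q - s)) * (U j)ᵀ) := by
      have h5 : (range q).filter (fun j => ¬ j < q - s) = (range (s : ℕ)).image (fun j => j + (q - s)) := by
        ext j
        simp only [mem_filter, mem_range, mem_image]
        constructor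
        · rintro ⟨h6, h7⟩
          exact ⟨j - (q - s), by omega, by omega⟩
        · rintro ⟨i, hi, rfl⟩
          have := s.2
          omega
      rw [h5, Finset.sum_image (by intro x _ y _ hxy; simpa using hxy)]
      have h6 : ∀ (M : Matrix ν ν ℤ) (F : ℕ → Matrix κ κ ℤ) (t : Finset ℕ),
          M ⊗ₖ (∑ j ∈ t, F j) = ∑ j ∈ t, M ⊗ₖ F j := by
        intro M F t
        induction t using Finset.induction_on with
        | empty => simp
        | insert x t hx ih => rw [Finset.sum_insert hx, Finset.sum_insert hx, kronecker_add, ih]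
      rw [h6]
      refine Finset.sum_congr rfl fun j _ => ?_
      rw [Nat.add_sub_cancel]
    have h7 : ∑ j ∈ (range q).filter (fun j => j < q - s),
        (V k * (V (k'' : G))ᵀ) ⊗ₖ (U j * (U (j + s))ᵀ) =
        (V k * (V (k'' : G))ᵀ) ⊗ₖ (∑ j ∈ range (q - s), U j * (U (j + s))ᵀ) := by
      rw [h3]
      have h6 : ∀ (M : Matrix ν ν ℤ) (F : ℕ → Matrix κ κ ℤ) (t : Finset ℕ),
          M ⊗ₖ (∑ j ∈ t, F j) = ∑ j ∈ t, M ⊗ₖ F j := by
        intro M F t
        induction t using Finset.induction_on with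
        | empty => simp
        | insert x t hx ih => rw [Finset.sum_insert hx, Finset.sum_insert hx, kronecker_add, ih]
      rw [h6]
    rw [h4, h7]
    have h8 := aper hW (s : ℕ)
    change ∑ j ∈ range (q - s), U j * (U (j + s))ᵀ = _ at h8
    by_cases hs : (s : ℕ) = 0
    · rw [if_pos hs]
      rw [if_pos hs] at h8
      rw [h8]
      have h9 : ∑ j ∈ range (s : ℕ), U (j + (q - s)) * (U j)ᵀ = 0 := by
        rw [hs]; simp
      rw [h9, kronecker_zero, add_zero, kronecker_smul]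
    · rw [if_neg hs]
      rw [if_neg hs] at h8
      rw [h8, kronecker_zero, zero_add]
      have h10 := aper hW (q - s)
      rw [if_neg (by have := s.2; omega), show q - (q - (s : ℕ)) = s by have := s.2; omega] at h10
      have h11 : ∑ j ∈ range (s : ℕ), U (j + (q - s)) * (U j)ᵀ = 0 := by
        have h12 := congrArg Matrix.transpose h10
        rw [Matrix.transpose_sum, Matrix.transpose_zero] at h12
        rw [← h12]
        refine Finset.sum_congr rfl fun j _ => ?_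
        rw [Matrix.transpose_mul, Matrix.transpose_transpose]
      rw [h11, kronecker_zero]
  have hsum : ∀ g : G, ∑ k' : K', X k' * (X (g * k'))ᵀ =
      ∑ k : K, ∑ j : Fin q, X (k * a ^ (j : ℕ)) * (X (g * (k * a ^ (j : ℕ))))ᵀ := by
    intro g
    rw [← Equiv.sum_comp e, Fintype.sum_prod_type]
    rfl
  refine ⟨X, ?_, ?_, ?_⟩
  · intro g hg i j
    have h1 := hf1 ⟨g, hg⟩
    have h2 := hX (f ⟨g, hg⟩).1 (f ⟨g, hg⟩).2 (f ⟨g, hg⟩).2.2
    change ((f ⟨g, hg⟩).1 : G) * a ^ ((f ⟨g, hg⟩).2 : ℕ) = g at h1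
    rw [h1] at h2
    rw [h2, kroneckerMap_apply]
    rcases hV.sign _ (f ⟨g, hg⟩).1.2 i.1 j.1 with h3 | h3 <;>
      rcases hW.sign (f ⟨g, hg⟩).2 (f ⟨g, hg⟩).2.2 i.2 j.2 with h4 | h4 <;>
      simp only [U, Matrix.of_apply, h3, h4] <;> norm_num
  · have h1 := hsum 1
    simp only [one_mul] at h1
    rw [h1]
    have h2 : ∀ k : K, ∑ j : Fin q, X (k * a ^ (j : ℕ)) * (X (k * a ^ (j : ℕ)))ᵀ =
        ((Fintype.card κ * q : ℕ) : ℤ) • ((V k * (V (k : G))ᵀ) ⊗ₖ (1 : Matrix κ κ ℤ)) := by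
      intro k
      obtain ⟨k'', s, hs, h3, h4⟩ := key 1 K'.one_mem k
      simp only [one_mul] at h3 h4
      rw [h4]
      have h5 := hf2 ⟨(k : G) * a ^ 0, hmem (k, ⟨0, hq0⟩)⟩ (k, ⟨0, hq0⟩) rfl
      have h6 := hf2 ⟨(k : G) * a ^ 0, hmem (k, ⟨0, hq0⟩)⟩ (k'', ⟨s, hs⟩) (by
        change (k'' : G) * a ^ s = (k : G) * a ^ 0
        rw [← h3, pow_zero, mul_one])
      have h7 := h6.trans h5.symm
      have h8 := congrArg (fun p : K × Fin q => (p.2 : ℕ)) h7
      have h9 := congrArg (fun p : K × Fin q => p.1) h7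
      change s = 0 at h8
      change k'' = k at h9
      rw [if_pos h8, h9]
    rw [Finset.sum_congr rfl fun k _ => h2 k, ← Finset.smul_sum]
    have h6 : ∀ (F : K → Matrix ν ν ℤ) (M : Matrix κ κ ℤ) (t : Finset K),
        (∑ j ∈ t, (F j) ⊗ₖ M) = (∑ j ∈ t, F j) ⊗ₖ M := by
      intro F M t
      induction t using Finset.induction_on with
      | empty => simp
      | insert x t hx ih => rw [Finset.sum_insert hx, Finset.sum_insert hx, add_kronecker, ih]
    rw [h6, hV.diag, smul_kronecker, one_kronecker_one, smul_smul, hcard, Fintype.card_prod]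
    congr 1
    push_cast
    ring
  · intro g hg hg1
    rw [hsum g]
    by_cases hgK : g ∈ K
    · have h2 : ∀ k : K, ∑ j : Fin q, X (k * a ^ (j : ℕ)) * (X (g * (k * a ^ (j : ℕ))))ᵀ =
          ((Fintype.card κ * q : ℕ) : ℤ) • ((V k * (V (g * (k : G)))ᵀ) ⊗ₖ (1 : Matrix κ κ ℤ)) := by
        intro k
        obtain ⟨k'', s, hs, h3, h4⟩ := key g hg k
        rw [h4]
        have hgk : g * (k : G) ∈ K := K.mul_mem hgK k.2
        have h5 := hf2 ⟨(g * (k : G)) * a ^ 0, hmem (⟨g * k, hgk⟩, ⟨0, hq0⟩)⟩ (⟨g * k, hgk⟩, ⟨0, hq0⟩) rfl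
        have h6 := hf2 ⟨(g * (k : G)) * a ^ 0, hmem (⟨g * k, hgk⟩, ⟨0, hq0⟩)⟩ (k'', ⟨s, hs⟩) (by
          change (k'' : G) * a ^ s = (g * (k : G)) * a ^ 0
          rw [← h3, pow_zero, mul_one])
        have h7 := h6.trans h5.symm
        have h8 := congrArg (fun p : K × Fin q => (p.2 : ℕ)) h7
        have h9 := congrArg (fun p : K × Fin q => (p.1 : G)) h7
        change s = 0 at h8
        change (k'' : G) = g * k at h9
        rw [if_pos h8, h9]
      rw [Finset.sum_congr rfl fun k _ => h2 k, ← Finset.smul_sum]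
      have h6 : ∀ (F : K → Matrix ν ν ℤ) (M : Matrix κ κ ℤ) (t : Finset K),
          (∑ j ∈ t, (F j) ⊗ₖ M) = (∑ j ∈ t, F j) ⊗ₖ M := by
        intro F M t
        induction t using Finset.induction_on with
        | empty => simp
        | insert x t hx ih => rw [Finset.sum_insert hx, Finset.sum_insert hx, add_kronecker, ih]
      rw [h6, hV.off g hgK hg1, zero_kronecker, smul_zero]
    · refine Finset.sum_eq_zero fun k _ => ?_
      obtain ⟨k'', s, hs, h3, h4⟩ := key g hg k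
      rw [h4, if_neg]
      intro h5
      rw [h5, pow_zero, mul_one] at h3
      apply hgK
      have h6 : g = k'' * (k : G)⁻¹ := by rw [← h3]; group
      rw [h6]
      exact K.mul_mem k''.2 (K.inv_mem k.2)

end Run7.h900.GI
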